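import Pool.Agent.helper52.IR.Spec

set_option autoImplicit false

open scoped MatrixGroups ContDiff Topology UpperHalfPlane ComplexConjugate
open UpperHalfPlane MeasureTheory Filter Set

namespace Pool.Agent.IR

open Pool.Agent.RS
open Pool.Agent.MS (bq BB BA SF pf)
open Pool.Agent.HV (FW)

theorem LFX_FW (Γ : Subgroup SL(2, ℝ)) (A : Finset SL(2, ℝ)) (b v : ℝ) (γ : Γ) (h : SL(2, ℝ)) :
    (γ : SL(2, ℝ)) * h ∈ FW Γ A b v ↔ h ∈ FW Γ A b v := by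
  constructor
  · rintro ⟨y, hy, γ', h'⟩
    refine ⟨y, hy, γ' * γ, ?_⟩
    have e : y⁻¹ * ((γ' * γ : Γ) : SL(2, ℝ)) * h = y⁻¹ * (γ' : SL(2, ℝ)) * ((γ : SL(2, ℝ)) * h) := by
      rw [Subgroup.coe_mul]
      group
    rw [e]
    exact h'
  · rintro ⟨y, hy, γ', h'⟩
    refine ⟨y, hy, γ' * γ⁻¹, ?_⟩
    have e : y⁻¹ * ((γ' * γ⁻¹ : Γ) : SL(2, ℝ)) * ((γ : SL(2, ℝ)) * h) = y⁻¹ * (γ' : SL(2, ℝ)) * h := by
      rw [Subgroup.coe_mul, Subgroup.coe_inv]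
      group
    rw [e]
    exact h'

theorem LFX_WS (Γ : Subgroup SL(2, ℝ)) (Ap At As : Finset SL(2, ℝ)) (b : ℝ) (p s1 : ℕ) (γ : Γ) (h : SL(2, ℝ)) :
    (γ : SL(2, ℝ)) * h ∈ WS Γ Ap At As b p s1 ↔ h ∈ WS Γ Ap At As b p s1 := by
  show ((γ : SL(2, ℝ)) * h * aM (-(3 * p)) ∈ FW Γ Ap b (Real.exp (-p)) ∧ (γ : SL(2, ℝ)) * h * aM (-(2 * p)) ∈ FW Γ At b (Real.exp (-(2 * p))) ∧
      (γ : SL(2, ℝ)) * h * aM (-(2 * p)) ∈ FW Γ As b (Real.exp (-(2 * p - s1)))) ↔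
    (h * aM (-(3 * p)) ∈ FW Γ Ap b (Real.exp (-p)) ∧ h * aM (-(2 * p)) ∈ FW Γ At b (Real.exp (-(2 * p))) ∧
      h * aM (-(2 * p)) ∈ FW Γ As b (Real.exp (-(2 * p - s1))))
  rw [mul_assoc, mul_assoc, LFX_FW, LFX_FW, LFX_FW]

theorem LFX_om (w x κ : ℝ) (hw : |w| ≤ 1 / 16) (hx : |x| ≤ 3) (h1 : 1 / 2 ≤ κ) (h2 : κ ≤ 3) : 0 < κ * om w x ∧ κ * om w x ≤ 8 := by
  have h3 : |w * x| ≤ 1 / 16 * 3 := by
    rw [abs_mul]
    exact mul_le_mul hw hx (abs_nonneg _) (by norm_num)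
  have h4 := abs_le.1 h3
  have h5 : (13 / 16 : ℝ) ≤ 1 - w * x := by linarith [h4.2]
  have h6 : (1 / 2 : ℝ) ≤ (1 - w * x) ^ 2 := by nlinarith
  have h7 : 0 < om w x := by
    unfold om
    positivity
  have h8 : om w x ≤ 2 := by
    unfold om
    rw [div_le_iff₀ (by linarith)]
    linarith
  refine ⟨mul_pos (by linarith) h7, ?_⟩
  nlinarith

theorem LFX_exp (p : ℕ) (hp : 2 ≤ p) : Real.pi / 2 * Real.exp (-(3 * p)) ≤ 1 / 100 := by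
  have h0 : (2 : ℝ) ≤ p := by exact_mod_cast hp
  have h1 : Real.exp (-(3 * p)) ≤ Real.exp (-6) := Real.exp_le_exp.2 (by linarith)
  have h2 : (2.7 : ℝ) ≤ Real.exp 1 := by
    have := Real.exp_one_gt_d9
    linarith
  have h3 : (2.7 : ℝ) ^ 6 ≤ Real.exp 6 := by
    have e : Real.exp 6 = Real.exp 1 ^ 6 := by
      rw [← Real.exp_nat_mul]
      norm_num
    rw [e]
    exact pow_le_pow_left₀ (by norm_num) h2 6
  have h4 : (200 : ℝ) ≤ Real.exp 6 := le_trans (by norm_num) h3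
  have h5 : Real.exp (-6) ≤ 1 / 200 := by
    rw [Real.exp_neg, inv_eq_one_div]
    exact one_div_le_one_div_of_le (by norm_num) h4
  have h6 : Real.pi < 4 := by
    have := Real.pi_lt_d2
    linarith
  have h7 : 0 < Real.pi := Real.pi_pos
  have h8 : 0 < Real.exp (-(3 * (p : ℝ))) := Real.exp_pos _
  nlinarith

theorem LFX_proof (hBDS : BDS_stmt) (hGEO : GEO_stmt) (hTRF : TRF_stmt) (hBLK : BLK_stmt) : LFX_stmt := by
  classical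
  intro Γ hΓ a Λ2 ha0 ha hΛ
  obtain ⟨C0, hC0, hB⟩ := hBDS Γ hΓ a Λ2 ha0 ha hΛ
  refine ⟨32 * C0, max 2 ⌈Λ2⌉₊, by linarith, ?_⟩
  intro p s1 εc θ0 R Ap At As hp hεc hs1 hθ0 hθ1 hR
  have hp2 : 2 ≤ p := le_trans (le_max_left _ _) hp
  have hpΛ : Λ2 ≤ p := le_trans (Nat.le_ceil _) (by exact_mod_cast le_trans (le_max_right _ _) hp)
  have hΛp : 0 < Λ2 := by linarith
  have hpi : 0 < Real.pi := Real.pi_pos
  have hE : ∀ x : ℝ, 0 < Real.exp x := Real.exp_pos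
  have hp0 : (0 : ℝ) ≤ p := Nat.cast_nonneg _
  -- sizes
  have h2a : 3200 ≤ 2 / a := by
    rw [le_div_iff₀ ha0]
    linarith
  have hep1 : 1 ≤ Real.exp (p : ℝ) := Real.one_le_exp hp0
  obtain ⟨L, hLdef⟩ : ∃ L : ℕ, L = ⌈(Λ2 + 2 / a) * Real.exp p⌉₊ := ⟨_, rfl⟩
  have hL1 : (Λ2 + 2 / a) * Real.exp p ≤ L := by rw [hLdef]; exact Nat.le_ceil _
  have hL3 : (3200 : ℝ) ≤ L := by nlinarith
  have hL100 : 100 ≤ L := by
    have h1 : (100 : ℝ) ≤ L := by linarith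
    exact_mod_cast h1
  have hL0 : (0 : ℝ) < L := by linarith
  obtain ⟨ε2, hε2⟩ : ∃ ε2 : ℝ, ε2 = Real.exp (-(3 * p)) / Λ2 := ⟨_, rfl⟩
  have hε2pos : 0 < ε2 := by rw [hε2]; exact div_pos (hE _) hΛp
  have hε2c : ε2 = 2 * εc / Real.pi := by
    rw [hε2, hεc]
    field_simp
  have hεcpos : 0 < εc := by rw [hεc]; exact mul_pos (div_pos hpi (by linarith)) (hE _)
  have hεc100 : εc ≤ 1 / 100 := by
    refine le_trans ?_ (LFX_exp p hp2)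
    rw [hεc]
    refine mul_le_mul_of_nonneg_right ?_ (hE _).le
    exact div_le_div_of_nonneg_left hpi.le (by norm_num) (by linarith)
  have h4p : Real.exp (-(4 * p)) ≤ ε2 := by
    rw [hε2, le_div_iff₀ hΛp]
    have e : Real.exp (-(3 * (p : ℝ))) = Real.exp (-(4 * p)) * Real.exp p := by
      rw [← Real.exp_add]
      congr 1
      ring
    rw [e]
    refine mul_le_mul_of_nonneg_left ?_ (hE _).le
    have := Real.add_one_le_exp (p : ℝ)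
    linarith
  have h2p : Real.exp (-(2 * p)) ≤ L * ε2 := by
    have h1 : Λ2 * Real.exp p ≤ L := by
      refine le_trans ?_ hL1
      refine mul_le_mul_of_nonneg_right ?_ (hE _).le
      linarith
    have e : Real.exp (-(2 * (p : ℝ))) = Λ2 * Real.exp p * ε2 := by
      rw [hε2]
      have e1 : Real.exp (-(2 * (p : ℝ))) = Real.exp p * Real.exp (-(3 * p)) := by
        rw [← Real.exp_add]
        congr 1
        ring
      rw [e1]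
      field_simp
    rw [e]
    exact mul_le_mul_of_nonneg_right h1 hε2pos.le
  obtain ⟨Ab, hAb, hbad⟩ := hB p s1 L ε2 θ0 R Ap At As hLdef hL100 hε2 hs1 hθ0 hθ1 hR
  refine ⟨Ab, ?_, ?_⟩
  · have h1 : C0 * R ≤ 32 * C0 * R := by nlinarith
    exact hAb.trans h1
  intro l l0 g J c Y y0 y1 y2 hl hl0 hl0e hJC hY hY01 hy0 hy1 hy2
  rcases J.eq_empty_or_nonempty with hJ | ⟨j0, hj0⟩
  · subst hJ
    simp
  obtain ⟨hj0b, u0, hu0, x0, τ0, o0, e0, he0, hx0, hτ0, ho0, hmem0⟩ := hJC j0 hj0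
  obtain ⟨y, γ, w, τ1, x1, S, P, hw, hτ1, hx1, hγ, hSP, hS3, hAL⟩ := hbad _ hmem0.2
  obtain ⟨c0, lam, hlam1, hlam2, hX⟩ := hGEO Γ (WS Γ Ap At As (16 * a) p s1) εc l l0 w τ1 x1 g y _ γ J j0 (LFX_WS Γ Ap At As (16 * a) p s1)
    hεcpos hεc100 hl hl0 hl0e hw hτ1 hx1 hγ hj0b ⟨u0, hu0, x0, τ0, o0, e0, he0, hx0, hτ0, ho0, rfl⟩ (by
      intro j hj
      obtain ⟨hjb, u, hu, x, τ, o, e, he, hx, hτ, ho, hmem⟩ := hJC j hj
      exact ⟨hjb, u, hu, x, τ, o, e, he, hx, hτ, ho, hmem.1⟩)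
  have hlam0 : 0 < lam := by linarith
  have hκ1 : (1 : ℝ) / 2 ≤ 1 / lam := one_div_le_one_div_of_le hlam0 hlam2
  have hκ2 : 1 / lam ≤ 2 := by
    rw [div_le_iff₀ hlam0]
    linarith
  obtain ⟨w', κ', hw'1, hw'2, hκ'1, hκ'2, hsum⟩ := hAL (1 / lam) Y y0 y1 y2 hκ1 hκ2 hY hY01 hy0 hy1 hy2
  have hκ'3 : κ' ≤ 3 := by
    have h1 : (1 : ℝ) / L ≤ 1 / 2 := one_div_le_one_div_of_le (by norm_num) (by linarith)
    have h2 : 1 / lam * (1 + 1 / (L : ℝ)) ≤ 2 * (1 + 1 / 2) :=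
      mul_le_mul hκ2 (by linarith) (by positivity) (by norm_num)
    linarith
  choose! X hX2 hXocc hXest using hX
  let sI : ℤ → ℝ := fun I => κ' * om w' (I * Real.exp (-(2 * p)))
  let cI : ℤ → ℝ := fun I => 1 / lam / ε2 * (I * Real.exp (-(2 * p)) / (1 - w * (I * Real.exp (-(2 * p)))) - c0)
  let Jb : ℤ → Finset ℤ := fun I => J.filter (fun j => ⌊X j * Real.exp (2 * p)⌋ = I)
  have hblk := hBLK S Jb P cI sI Y J c hY hY01 (fun I hI => LFX_om w' _ κ' hw'2 (hS3 I hI) (hκ1.trans hκ'1) hκ'3) (by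
      intro I hI j hj ξ hξ
      obtain ⟨hjJ, hjI⟩ := Finset.mem_filter.1 hj
      obtain ⟨i, hi, h1, h2⟩ := hTRF εc ε2 w w' κ' c0 lam (X j) p L j hεcpos hε2c (by linarith) hw'2 (by omega) hw'1 hlam1 hlam2 hκ'1 hκ'2 (hX2 j hjJ)
        h4p h2p (hXest j hjJ) ξ hξ
      obtain ⟨-, h3⟩ := hSP (X j) (hX2 j hjJ) (hXocc j hjJ)
      rw [← hjI]
      exact ⟨_, h3 i hi, h1, h2⟩)
    (by
      intro j hj
      exact ⟨⌊X j * Real.exp (2 * p)⌋, (hSP (X j) (hX2 j hj) (hXocc j hj)).1, Finset.mem_filter.2 ⟨hj, rfl⟩⟩)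
  refine hblk.trans ?_
  have hsum2 : ∑ I ∈ S, Real.sqrt (∫ v in Y, ∫ v' in Y, ‖ps (P I) (sI I * (v - v'))‖ ^ 2) ≤ C0 * Real.sqrt (EB At.card Ap.card As.card y0 y1 y2 p s1 θ0 R) := by
    have h1 : ∑ I ∈ S, Real.sqrt (∫ v in Y, ∫ v' in Y, ‖ps (P I) (sI I * (v - v'))‖ ^ 2) ≤
        Real.sqrt (C0 * EB At.card Ap.card As.card y0 y1 y2 p s1 θ0 R) := Real.le_sqrt_of_sq_le hsum
    refine h1.trans ?_
    rw [Real.sqrt_mul (by linarith)]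
    refine mul_le_mul_of_nonneg_right ?_ (Real.sqrt_nonneg _)
    rw [Real.sqrt_le_left (by linarith)]
    nlinarith
  refine mul_le_mul_of_nonneg_right ?_ (Finset.sum_nonneg fun j _ => by positivity)
  nlinarith

end Pool.Agent.IR
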